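import Pool.Agent.helper84.HF.All
import Pool.Agent.helper84.HF.AC

/-!
# At least half of every quantum limit of a closed hyperbolic surface is absolutely continuous

`M = Γ \ ℍ` is an arbitrary closed hyperbolic surface and `ν` an arbitrary weak limit of `|φ_k|² dz`, where the `φ_k` are `L²`-normalised eigenfunctions of the Laplacian with
eigenvalues `1/4 + s_k²`, `s_k → ∞`.

Then the absolutely continuous part of `ν` has mass at least `1/2`: there is a measurable function `f ≥ 0` on `M` with `∫_M f ≥ 1/2` and `ν(A) ≥ ∫_A f` for all Borel sets `A` (integrals with respect to the area). In particular `ν(N) ≤ 1/2` for every Borel set `N` of area zero, and no quantum limit is singular.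

Proof. `ν` is the projection of a probability measure `μ` on `Γ \ SL(2, ℝ)` which is invariant under the geodesic flow, the limit of the squares of the coefficients of horocyclic wave packets. The part of `μ` over `N` has local entropy `≤ 1/2`, so it is covered by `e^((1/2+κ) n)` Bowen boxes of length `n`,
whose centres are, at most of the times `i < n`, in one of at most `e^(5m/8)` Bowen boxes of a fixed length `m`. So the trace `Y` of the boxes on an unstable horocyclic segment is porous at most scales, and it has additive energy `≤ |Y|³ e^(-γ n)` (entropic theorem of Balog, Szemerédi and Gowers; sums of many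
independent variables become uniform at the scales at which one of them has positive variance). Let `u` be the part of `φ_k` localised in the boxes at the time `log r - n - c`. The wave packets of `u` whose past is in the boxes are an exponential sum over `≤ C e^((1/2+κ) n)` frequencies on `Y`; by the bound for the additive
energy its mass is at most `C e^(-c n)`. The rest `φ_k - u` has mass `1 - ν(N)`; so `ν(N) ≤ 1 - ν(N)`.
-/

set_option autoImplicit false

open scoped MatrixGroups ContDiff Topology UpperHalfPlane ENNReal Pointwise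
open UpperHalfPlane MeasureTheory Filter Set

namespace Pool.Agent.Results.MP_07c750_an.AbsolutelyContinuousHalf

open Pool.Agent

theorem result (Γ : Subgroup SL(2, ℝ)) (F : Set ℍ) (hΓ : QU.SurfaceGroup Γ)
    (hF : IsFundamentalDomain Γ F (volume : Measure ℍ))
    (s : ℕ → ℝ) (φ : ℕ → ℍ → ℂ) (hs : Tendsto s atTop atTop)
    (hφ : ∀ k, RS.Eig Γ (s k) (φ k)) (h1 : ∀ k, ∫ z in F, ‖φ k z‖ ^ 2 = 1)
    (ν : Measure (EN.MG Γ)) (hν : IsFiniteMeasure ν)
    (hlim : ∀ V : EN.MG Γ → ℝ, Continuous V →
      Tendsto (fun k => ∫ z in F, V (EN.mkM Γ z) * ‖φ k z‖ ^ 2) atTop (𝓝 (∫ x, V x ∂ν))) :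
    ∃ f : EN.MG Γ → ℝ≥0∞, Measurable f ∧ 1 / 2 ≤ ∫⁻ z in F, f (EN.mkM Γ z) ∧
      ∀ A : Set (EN.MG Γ), MeasurableSet A →
        ∫⁻ z in F ∩ {z : ℍ | EN.mkM Γ z ∈ A}, f (EN.mkM Γ z) ≤ ν A := by
  have H : ∀ N : Set (EN.MG Γ), MeasurableSet N → volume {z : ℍ | EN.mkM Γ z ∈ N} = 0 → ν N ≤ 1 / 2 :=
    fun N hN hN0 => HF.A_half Γ F s φ ν hΓ hF hs hφ h1 hν hlim N hN hN0
  have hm : Measurable (EN.mkM Γ) := (EN.A_XFL Γ).2.2.2.2.2.1.measurable
  obtain ⟨F₀, hF₀⟩ := QU.A_DOM Γ hΓ
  obtain ⟨hcnt, hd, -, hfin, hvol, -⟩ := QU.A_DOB Γ F₀ hΓ hF₀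
  have hFf : volume F < ⊤ := by rw [(hvol F hF).1]; exact hfin
  have hprob : IsProbabilityMeasure ν := by
    have h2 := hlim (fun _ => 1) continuous_const
    have h3 : (fun k => ∫ z in F, (1 : ℝ) * ‖φ k z‖ ^ 2) = fun _ => (1 : ℝ) := by
      funext k
      simp only [one_mul]
      exact h1 k
    rw [h3] at h2
    have h4 : (1 : ℝ) = ∫ _, (1 : ℝ) ∂ν := tendsto_nhds_unique tendsto_const_nhds h2
    rw [integral_const, smul_eq_mul, mul_one] at h4
    refine ⟨?_⟩
    have h5 : ν univ = ENNReal.ofReal (ν.real univ) := (ofReal_measureReal).symm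
    rw [h5, ← h4, ENNReal.ofReal_one]
  refine HF.ac_half Γ F ν hm hFf fun N hN hN0 => H N hN ?_
  have hsm : SMulInvariantMeasure Γ ℍ (volume : Measure ℍ) := QU.A_INV.2.1 Γ
  have hinv : ∀ γ : Γ, γ • {z : ℍ | EN.mkM Γ z ∈ N} = {z : ℍ | EN.mkM Γ z ∈ N} := by
    intro γ
    ext z
    have h6 : EN.mkM Γ (γ⁻¹ • z) = EN.mkM Γ z := ((EN.A_XFL Γ).2.2.2.2.2.2.2.2.2.2.2 (γ⁻¹ • z) z).mpr ⟨γ, by simp⟩
    rw [Set.mem_smul_set_iff_inv_smul_mem]
    exact iff_of_eq (congrArg (· ∈ N) h6)
  refine hF.measure_zero_of_invariant _ hinv ?_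
  rw [Set.inter_comm]
  exact hN0

end Pool.Agent.Results.MP_07c750_an.AbsolutelyContinuousHalf
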