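import Pool.Agent.helper11.VDI.AllI

/-!
# Quantum unique ergodicity for generic families of negatively curved metrics: all members at once, on every compact manifold of every dimension `d ≥ 2`

`M = Γ \ ℝ^d`, where the group `Γ` acts freely, properly discontinuously and cocompactly by diffeomorphisms of `ℝ^d`. By the theorem of Cartan and Hadamard every compact connected manifold (without boundary) of dimension `d` which has a metric of negative sectional curvature
is of this form (`Γ` = its fundamental group). Riemannian metrics on `M` are the `Γ`-invariant smooth metrics `G` on `ℝ^d`.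

There are smooth bump functions `u_kj ≥ 0` on `M` (`j < J k`), depending only on the action, whose derivatives of every order are summable over `k`, such that with `F_ξ = ∑ ξ_kj u_kj` we have, for EVERY smooth family `(G_s)`, `s ∈ ℝ^m`, of metrics on `M` (`m` arbitrary; `m = 0`: a single metric): for almost every
`ξ ∈ [-1, 1]^(ℕ × ℕ)` and FOR EVERY parameter `s`: if the metric `e^(F_ξ) G_s` has negative sectional curvature, then quantum unique ergodicity holds in full for this metric: for every continuous function `h` on `M` and every `ε > 0` ALL eigenfunctions `φ` of its Laplace-Beltrami operator with large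
eigenvalue satisfy `|∫ h dν - ⟨h⟩ ν(M)| ≤ ε ν(M)`, `ν = |φ|² dvol`; moreover this holds UNIFORMLY for `s` in compact sets of parameters (`S` = one point gives the pointwise statement). So the negatively curved metrics without quantum unique ergodicity are avoided by all smooth finite-parameter
families of metrics after an arbitrarily small generic perturbation: a set of infinite codimension. If the `G_s` are negatively curved for all `s` in a compact set `S`, then with positive probability `F_ξ` is as small as one wants with all its derivatives up to an arbitrary order, all `e^(F_ξ) G_s`,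
`s ∈ S`, have negative curvature, and quantum unique ergodicity holds for all of them, uniformly.

Proof. An eigenfunction of frequency `R` is a superposition of Gaussian beams (wave packets at the scale `R^(-1/2 + z)`), followed in steps of length one and re-expanded, up to the time `C log R`. The kernel of the propagation is multiplied by `exp (i R ∫ θ)` under a conformal change of size
`R^(-1 + o(1))` of the metric. Let `P` be the projection on the set of directions whose time averages deviate (large deviations for pseudo-orbits: shadowing, volume lemma, ergodicity of the geodesic flow by Bowen's argument). The words `P U^(n_1) P U^(n_2) ... P` have a small Hilbert-Schmidt norm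
outside of a set of `ξ` of measure `R^(-B)`, `B` arbitrary: resample the level `k = log₂ R` of the series; only pairs of broken geodesics which are not distinguished by the bumps survive, and these are few (negative curvature: two chains with the same ends which stay close are equal up to
`R^(-1/2 + o(1))`). A dilation and Cayley transform argument for contractions gives `‖P Q‖² ≤ ((2 L + 1) / n + ε) ‖Q‖²`. The estimate for one metric passes to all metrics at distance `R^(-L)`, `L` fixed: the beams of the first metric are tested against the eigenfunctions of the second one in the weak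
form of the equation. The parameters `s` in a ball are covered by `R^(L m)` cells, and `B > L m + 4`; Borel-Cantelli over a polynomial net of frequencies.
-/

set_option autoImplicit false

open scoped ContDiff Topology InnerProductSpace
open MeasureTheory Filter Set

namespace Pool.Agent.Results.MP_07c750_an.AllSmoothFamilies

open Pool.Agent

/-! ## Riemannian metrics on a Euclidean space `E` -/

section metrics

variable {E : Type} [NormedAddCommGroup E] [InnerProductSpace ℝ E]

/-- `g_x(u, v) = ⟪G x u, v⟫` is a smooth Riemannian metric -/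
structure IsMetric (G : E → E →L[ℝ] E) : Prop where
  smooth : ContDiff ℝ ∞ G
  symm : ∀ x u v, ⟪G x u, v⟫_ℝ = ⟪u, G x v⟫_ℝ
  pos : ∀ x u, u ≠ 0 → 0 < ⟪G x u, u⟫_ℝ

/-- the metric `e^f G` -/
noncomputable def conformal (f : E → ℝ) (G : E → E →L[ℝ] E) (x : E) : E →L[ℝ] E := Real.exp (f x) • G x

/-- the derivatives of order `n` of `f` are at most `b` on `L` -/
def DerivLe (L : Set E) (n : ℕ) (f : E → ℝ) (b : ℝ) : Prop := ∀ x ∈ L, ‖iteratedFDeriv ℝ n f x‖ ≤ b

/-- `G` is a Riemannian metric on the quotient `Γ \ E`: a smooth Riemannian metric on `E` for which the elements of `Γ` are isometries -/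
def MetricOn (Γ : Type) [Group Γ] [MulAction Γ E] (G : E → E →L[ℝ] E) : Prop :=
  IsMetric G ∧ ∀ (γ : Γ) (x u v : E), ⟪G (γ • x) (fderiv ℝ (fun y : E => γ • y) x u), fderiv ℝ (fun y : E => γ • y) x v⟫_ℝ = ⟪G x u, v⟫_ℝ

variable [CompleteSpace E]

/-- the Christoffel symbols `C_x(u, v)`: `2 g(C(u, v), w) = (D_u g)(v, w) + (D_v g)(u, w) - (D_w g)(u, v)`; the Levi-Civita connection is `∇_u v = D_u v + C(u, v)` -/
noncomputable def Chr (G : E → E →L[ℝ] E) (x u v : E) : E :=
  (G x).inverse ((1 / 2 : ℝ) • (fderiv ℝ G x u v + fderiv ℝ G x v u - gradient (fun y => ⟪G y u, v⟫_ℝ) x))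

/-- the curvature tensor `R(u, v) w = ∇_u ∇_v w - ∇_v ∇_u w` (`u, v, w` constant) -/
noncomputable def Riem (G : E → E →L[ℝ] E) (x u v w : E) : E :=
  fderiv ℝ (fun y => Chr G y v w) x u - fderiv ℝ (fun y => Chr G y u w) x v + Chr G x u (Chr G x v w) - Chr G x v (Chr G x u w)

/-- all sectional curvatures `g(R(u, v) v, u) / (g(u, u) g(v, v) - g(u, v)²)` are negative -/
def NegativelyCurved (G : E → E →L[ℝ] E) : Prop :=
  ∀ x u v : E, LinearIndependent ℝ ![u, v] → ⟪G x (Riem G x u v v), u⟫_ℝ / (⟪G x u, u⟫_ℝ * ⟪G x v, v⟫_ℝ - ⟪G x u, v⟫_ℝ ^ 2) < 0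

end metrics

/-! ## The manifold `M = Γ \ ℝ^d` -/

/-- `ℝ^d` -/
abbrev V (d : ℕ) : Type := EuclideanSpace ℝ (Fin d)

variable {d : ℕ}

/-- `Γ` acts on `ℝ^d` freely, properly discontinuously and cocompactly by diffeomorphisms: `M = Γ \ ℝ^d` is a compact manifold -/
structure CocompactAction (Γ : Type) [Group Γ] (d : ℕ) [MulAction Γ (V d)] : Prop where
  smooth : ∀ γ : Γ, ContDiff ℝ ∞ fun x : V d => γ • x
  free : ∀ (γ : Γ) (x : V d), γ • x = x → γ = 1
  proper : ∀ K : Set (V d), IsCompact K → {γ : Γ | ∃ x ∈ K, γ • x ∈ K}.Finite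
  cocompact : ∃ K : Set (V d), IsCompact K ∧ ∀ x : V d, ∃ γ : Γ, γ • x ∈ K

/-- `Γ`-invariant functions, that is, functions on `M` -/
def Inv (Γ : Type) [Group Γ] [MulAction Γ (V d)] {α : Type} (h : V d → α) : Prop := ∀ (γ : Γ) (x : V d), h (γ • x) = h x

/-- the density of the Riemannian volume with respect to the Lebesgue measure -/
noncomputable def dens (G : V d → V d →L[ℝ] V d) (x : V d) : ℝ := Real.sqrt (G x).det

/-- the Laplace-Beltrami operator `|g|^(-1/2) ∑ ∂_i (|g|^(1/2) g^(ij) ∂_j φ)` -/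
noncomputable def lap (G : V d → V d →L[ℝ] V d) (φ : V d → ℂ) (x : V d) : ℂ :=
  ((dens G x)⁻¹ : ℝ) * ∑ i : Fin d, fderiv ℝ (fun y => ((dens G y : ℝ) : ℂ) * fderiv ℝ φ y ((G y).inverse (EuclideanSpace.single i 1))) x (EuclideanSpace.single i 1)

/-- `φ` is an eigenfunction on `M` of the Laplace-Beltrami operator, `Δ φ + μ φ = 0` -/
def Eigenfunction (Γ : Type) [Group Γ] [MulAction Γ (V d)] (G : V d → V d →L[ℝ] V d) (μ : ℝ) (φ : V d → ℂ) : Prop :=
  ContDiff ℝ 2 φ ∧ Inv Γ φ ∧ ∀ x, lap G φ x + (μ : ℂ) * φ x = 0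

/-- quantum unique ergodicity for a set `A` of metrics on `M`, uniformly (`F` is a fundamental domain): for every continuous function `h` on `M` and `ε > 0` there is a threshold `μ₀` such that for all metrics in `A` all eigenfunctions `φ` of eigenvalue at least `μ₀` satisfy `|∫ h dν - ⟨h⟩ ν(M)| ≤ ε ν(M)`, `ν = |φ|² dvol`, `⟨h⟩` the mean value of `h` for the Riemannian volume -/
def QUE (Γ : Type) [Group Γ] [MulAction Γ (V d)] (F : Set (V d)) (A : Set (V d → V d →L[ℝ] V d)) : Prop :=
  ∀ h : V d → ℝ, Continuous h → Inv Γ h → ∀ ε : ℝ, 0 < ε → ∃ μ₀ : ℝ, ∀ G ∈ A, ∀ (μ : ℝ) (φ : V d → ℂ), μ₀ ≤ μ → Eigenfunction Γ G μ φ →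
    |(∫ x in F, h x * ‖φ x‖ ^ 2 * dens G x) - (∫ x in F, h x * dens G x) / (∫ x in F, dens G x) * ∫ x in F, ‖φ x‖ ^ 2 * dens G x| ≤
      ε * ∫ x in F, ‖φ x‖ ^ 2 * dens G x

/-- the uniform probability measure on `[-1, 1]` -/
noncomputable def uniform : Measure ℝ := (2 : ENNReal)⁻¹ • (volume : Measure ℝ).restrict (Icc (-1) 1)

instance : IsProbabilityMeasure uniform := RPQ.UN_prob

/-- `G_s`, `s ∈ ℝ^m`, is a smooth family of Riemannian metrics on `M = Γ \ ℝ^d` -/
structure SmoothFamily (Γ : Type) [Group Γ] [MulAction Γ (V d)] {m : ℕ} (G : V m → V d → V d →L[ℝ] V d) : Prop where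
  smooth : ContDiff ℝ ∞ fun q : V m × V d => G q.1 q.2
  metric : ∀ s, MetricOn Γ (G s)

/-- the function `∑_k ∑_(j < J k) ξ_kj u_kj` -/
noncomputable def series (J : ℕ → ℕ) (u : ℕ → ℕ → V d → ℝ) (ξ : ℕ × ℕ → ℝ) (x : V d) : ℝ :=
  ∑' k, ∑ j ∈ Finset.range (J k), ξ (k, j) * u k j x

/-- the metrics `e^(F_ξ) G_s`, `s ∈ S` -/
def perturbed {m : ℕ} (J : ℕ → ℕ) (u : ℕ → ℕ → V d → ℝ) (ξ : ℕ × ℕ → ℝ) (G : V m → V d → V d →L[ℝ] V d) (S : Set (V m)) : Set (V d → V d →L[ℝ] V d) :=
  (fun s => conformal (series J u ξ) (G s)) '' S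

/-- fundamental domains exist -/
theorem exists_fundamentalDomain (hDFD : VD.DFD_stmt) (d : ℕ) (Γ : Type) [Group Γ] [MulAction Γ (V d)] (hΓ : CocompactAction Γ d) :
    ∃ F : Set (V d), IsFundamentalDomain Γ F (volume : Measure (V d)) := by
  obtain ⟨K0, hK0, hK0c⟩ := hΓ.cocompact
  obtain ⟨r, hr⟩ := hK0.isBounded.subset_closedBall (0 : V d)
  have hfd : VD.FdK Γ (Metric.closedBall (0 : V d) r) := ⟨isCompact_closedBall _ _, convex_closedBall _ _, fun x => by
    obtain ⟨γ, hγ⟩ := hK0c x
    exact ⟨γ, hr hγ⟩, hΓ.smooth, hΓ.free, hΓ.proper⟩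
  obtain ⟨-, F0, hF1, -, hF3⟩ := hDFD d Γ _ hfd
  exact ⟨F0, IsFundamentalDomain.mk' hF1.nullMeasurableSet hF3⟩

/-- the definitions agree with those of the library files -/
theorem negativelyCurved_iff (G : V d → V d →L[ℝ] V d) : VD.NegativelyCurved G ↔ NegativelyCurved G := Iff.rfl

theorem que_iff (Γ : Type) [Group Γ] [MulAction Γ (V d)] (F : Set (V d)) (A : Set (V d → V d →L[ℝ] V d)) : VDI.QUS Γ F A ↔ QUE Γ F A := Iff.rfl

theorem result (d : ℕ) (hd : 2 ≤ d) (Γ : Type) [Group Γ] [MulAction Γ (V d)] (hΓ : CocompactAction Γ d) :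
    (∃ F : Set (V d), IsFundamentalDomain Γ F (volume : Measure (V d))) ∧
    ∃ (k₀ : ℕ) (J : ℕ → ℕ) (u : ℕ → ℕ → V d → ℝ), (∀ k, k₀ ≤ k → 1 ≤ J k) ∧
      (∀ k j, ContDiff ℝ ∞ (u k j) ∧ Inv Γ (u k j) ∧ ∀ x, 0 ≤ u k j x) ∧
      (∀ L : Set (V d), IsCompact L → ∀ n : ℕ, ∃ c : ℕ → ℝ, Summable c ∧ ∀ (k : ℕ) (ξ : ℕ → ℝ), (∀ j, |ξ j| ≤ 1) →
        DerivLe L n (fun x => ∑ j ∈ Finset.range (J k), ξ j * u k j x) (c k)) ∧
      (∀ ξ : ℕ × ℕ → ℝ, (∀ q, |ξ q| ≤ 1) → ContDiff ℝ ∞ (series J u ξ)) ∧
      ∀ (m : ℕ) (G : V m → V d → V d →L[ℝ] V d), SmoothFamily Γ G →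
        (∀ᵐ ξ ∂(Measure.infinitePi fun _ : ℕ × ℕ => uniform), ∀ S : Set (V m), IsCompact S → (∀ H ∈ perturbed J u ξ G S, NegativelyCurved H) →
          ∀ F : Set (V d), IsFundamentalDomain Γ F (volume : Measure (V d)) → QUE Γ F (perturbed J u ξ G S)) ∧
        ∀ S : Set (V m), IsCompact S → (∀ s ∈ S, NegativelyCurved (G s)) → ∀ (L : Set (V d)) (n₀ : ℕ) (τ : ℝ), IsCompact L → 0 < τ →
          0 < (Measure.infinitePi fun _ : ℕ × ℕ => uniform) {ξ : ℕ × ℕ → ℝ | (∀ n ≤ n₀, DerivLe L n (series J u ξ) τ) ∧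
            (∀ H ∈ perturbed J u ξ G S, NegativelyCurved H) ∧
              ∀ F : Set (V d), IsFundamentalDomain Γ F (volume : Measure (V d)) → QUE Γ F (perturbed J u ξ G S)} := by
  obtain ⟨k₀, J, u, hJ, h1, h2, h3, h4⟩ := AllI.A_VDI_FNWU d Γ hd hΓ.smooth hΓ.free hΓ.proper hΓ.cocompact
  refine ⟨exists_fundamentalDomain AllD.A_VD_DFD d Γ hΓ, k₀, J, u, hJ, h1, h2, h3, fun m G hG => ?_⟩
  obtain ⟨h5, h6⟩ := h4 m G hG.smooth (fun s => ⟨(hG.metric s).1.smooth, (hG.metric s).1.symm, (hG.metric s).1.pos⟩) fun s => (hG.metric s).2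
  refine ⟨?_, ?_⟩
  · filter_upwards [h5] with ξ hξ S hS hneg F hF
    exact hξ S hS (fun s hs => hneg _ ⟨s, hs, rfl⟩) F hF
  · intro S hS hneg L n₀ τ hL hτ
    refine lt_of_lt_of_le (h6 S hS hneg L n₀ τ hL hτ) (measure_mono ?_)
    rintro ξ ⟨h7, h8, h9⟩
    refine ⟨h7, ?_, h9⟩
    rintro H ⟨s, hs, rfl⟩
    exact h8 s hs

end Pool.Agent.Results.MP_07c750_an.AllSmoothFamilies
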