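import Pool.Agent.helper25.FS.DGFin
import Pool.Agent.helper25.FS.AllF2

/-!
# At least half of every quantum limit is carried by geodesics which visit every ball with a uniform frequency

`M = Γ \ ℍ` is an arbitrary closed hyperbolic surface, `X = Γ \ SL(2, ℝ)`. There are `ε(r) > 0` and `N(r, e)`, which depend only on `Γ`, such that every weak limit `ν` of `|φ_k|² dz`, where the `φ_k` are
`L²`-normalised eigenfunctions of the Laplacian with eigenvalues `1/4 + s_k²`, `s_k → ∞`, is the projection of a probability measure `μ` on `X`, invariant under the geodesic flow, with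
(1) for all `r, e > 0` and `n ≥ N(r, e)`: the points `x` for which there is a ball `B_r(y)` such that the orbit of `x` spends at most the time `ε(r) n` of `[0, n]` in `B_r(y)` have `μ`-measure `≤ 1/2 + e`;
(2) the points `x` for which there is a ball `B_r(y)` such that for all large `T` the orbit of `x` spends at most the time `ε(r) T` of `[0, T]` in `B_r(y)` have `μ`-measure `≤ 1/2`: at least half of the mass sits
on ergodic components which give at least the mass `ε(r)` to EVERY ball of radius `r`, where `ε(r)` does not depend on the quantum limit;
(3) `μ(B_r(y)) ≥ ε(r)/2` for all balls (the theorem of Dyatlov and Jin, Acta Math. 2018);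
(4) the points whose orbit is not dense in `X` have `μ`-measure `≤ 1/2`: at least half of the mass sits on ergodic components with full support. (3) alone allows mixtures of closed geodesics and of
measures on invariant Cantor sets; by (4) all such components together have at most half of the mass.
Here `B_r(y) = Ux Γ r y` is the set of the points `Γ g h` with `Γ g = y` and with all entries of `h - 1` smaller than `r`.

Proof. `μ` is the limit of the squares of the coefficients of horocyclic wave packets. For this lift (the property `GP` of `Pool.Agent.helper52.IR.SpecC`) two sets of orbits, given by smooth functions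
of the future and of the past up to a time `n`, have together mass at most `1 + o(1)` if the corresponding sets of positions on an unstable horocycle and of frequencies satisfy an uncertainty
principle whose constant tends to `0` with `n`. The orbits which visit an open set `O` at most `ε n` times up to the time `n` meet a piece of a horocycle in a set which is the union, over the
sets of exceptional times, of sets which are porous at all scales which are not exceptional (the closed sets invariant under the upper triangular group are trivial, so every piece of a horocycle of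
length `1` meets `O` after a bounded time). The fractal uncertainty principle of Bourgain and Dyatlov is proved in an elementary form in which each scale is used separately: a Fourier series whose
spectrum has gaps at all scales `2^i`, `i < n`, above every point, and which is small on an interval, is small around it up to a factor `e^(-cn)` (the Cauchy transform of a window times the series is
analytic at the gaps; Phragmen-Lindelof with the harmonic measures of the gaps); so the series has a fixed proportion of its mass on the gaps of a set which is porous at one scale, and this is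
iterated over the scales. The gain `e^(-γ n)` beats the number `e^(η n)` of the sets of exceptional times. Finitely many open sets are treated at the same time; a finite family of open sets is such
that every ball of radius `r` contains one of them.

Definitions: `EN.XG Γ = Γ \ SL(2, ℝ)`, `EN.MG Γ = Γ \ ℍ`, `EN.fl Γ t` the geodesic flow `Γ g ↦ Γ g a_t`, `EN.pr Γ` the projection `Γ g ↦ Γ g i`, `EN.Ux Γ r y = B_r(y)` (`EN.nr r h`: the entries of `h - 1` are smaller
than `r`).
-/

set_option autoImplicit false

open scoped MatrixGroups ContDiff Topology UpperHalfPlane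
open UpperHalfPlane MeasureTheory Filter Set

namespace Pool.Agent.Results.MP_07c750_an.DenseGeodesics

open Pool.Agent

theorem result (Γ : Subgroup SL(2, ℝ)) (hΓ : QU.SurfaceGroup Γ) :
    ∃ (ε : ℝ → ℝ) (N : ℝ → ℝ → ℕ), (∀ r, 0 < r → 0 < ε r) ∧
      ∀ (F : Set ℍ) (s : ℕ → ℝ) (φ : ℕ → ℍ → ℂ) (ν : Measure (EN.MG Γ)),
        IsFundamentalDomain Γ F (volume : Measure ℍ) → Tendsto s atTop atTop →
        (∀ k, RS.Eig Γ (s k) (φ k)) → (∀ k, ∫ z in F, ‖φ k z‖ ^ 2 = 1) → IsFiniteMeasure ν →
        (∀ V : EN.MG Γ → ℝ, Continuous V →
          Tendsto (fun k => ∫ z in F, V (EN.mkM Γ z) * ‖φ k z‖ ^ 2) atTop (𝓝 (∫ x, V x ∂ν))) →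
        ∃ μ : Measure (EN.XG Γ), IsProbabilityMeasure μ ∧ (∀ t, μ.map (EN.fl Γ t) = μ) ∧
          μ.map (EN.pr Γ) = ν ∧
          (∀ r e : ℝ, 0 < r → 0 < e → ∀ n : ℕ, N r e ≤ n →
            μ {x | ∃ y : EN.XG Γ, volume.real {t : ℝ | t ∈ Icc (0 : ℝ) n ∧ EN.fl Γ t x ∈ EN.Ux Γ r y} ≤ ε r * n} ≤
              ENNReal.ofReal (1 / 2 + e)) ∧
          (∀ r : ℝ, 0 < r →
            μ {x | ∃ (y : EN.XG Γ) (T0 : ℝ), ∀ T : ℝ, T0 ≤ T →
              volume.real {t : ℝ | t ∈ Icc (0 : ℝ) T ∧ EN.fl Γ t x ∈ EN.Ux Γ r y} ≤ ε r * T} ≤ 1 / 2) ∧
          (∀ r : ℝ, 0 < r → ∀ y : EN.XG Γ, ENNReal.ofReal (ε r / 2) ≤ μ (EN.Ux Γ r y)) ∧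
          MeasurableSet {x : EN.XG Γ | ¬ Dense (range fun t : ℝ => EN.fl Γ t x)} ∧
          μ {x : EN.XG Γ | ¬ Dense (range fun t : ℝ => EN.fl Γ t x)} ≤ 1 / 2 :=
  FS.dg_final FSA.A_FRM FSA.A_FSD Γ hΓ

end Pool.Agent.Results.MP_07c750_an.DenseGeodesics
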