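import Pool.Agent.helper93.LQ.Fin
import Pool.Agent.helper93.LQ.AllL
import Pool.Agent.helper93.T1.AllT
import Pool.Agent.helper25.HH.AllH2

/-!
# Every quantum limit of every closed hyperbolic surface has entropy at least one half plus an absolute constant

`M = Γ \ ℍ` is an arbitrary closed hyperbolic surface and `ν` an arbitrary weak limit of `|φ_k|² dz`, where the `φ_k` are `L²`-normalised eigenfunctions of the Laplacian with
eigenvalues `1/4 + s_k²`, `s_k → ∞`.

There is an ABSOLUTE constant `c > 0` (the same for all surfaces and all sequences) such that always there is a probability measure `μ` on `X = Γ \ SL(2, ℝ)`, invariant under the geodesic flow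
and with projection `ν`, such that the distribution function `F(a) = μ {h ≤ a}` of its lower local entropy `h` (of Brin and Katok) satisfies
(1) `∫ l dμ ≥ 1/2 + c`, where `l = min(1, h)`: the bound `1/2` of Anantharaman and Nonnenmacher for the mean entropy is improved by an absolute constant (for quantized cat maps the bound `1/2` is attained);
(2) `F(1/2 + 10^(-7)) ≤ 1/2`: at least half of the mass has entropy above `1/2 + 10^(-7)`; so if `μ` is ergodic its entropy is above `1/2 + 10^(-7)`;
(3) `F(c) ≤ 1/2 - c`: strictly less than half of the mass can have entropy `0` or very small entropy, by an amount that does not depend on the surface;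
(4) `F(h) + F(a) ≤ 1` for all `0 ≤ a < 1/2`, `0 ≤ h < 1` with `3a + h < 2` (the uncertainty principle alone gives this for `a + h < 1`); for `a ≤ 1/3` it holds for all `h < 1`: the part of entropy
`≥ 1` is at least as heavy as the part of entropy `≤ 1/3`;
(5) `ν(A) ≥ F(1/3) area(A)/area(M)` for every Borel set `A` of `M`: the part of entropy `≤ 1/3` forces a uniform part at least as heavy;
(6) `ν` gives at most the mass `1/2 - c` to the union of ALL closed geodesics of `M`.

Proof. `μ` is the limit of the squares of the coefficients of horocyclic wave packets. Points whose future is in few Bowen boxes and points whose past is in few Bowen boxes are compared by exponential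
sums on pieces of unstable horocycles. The frequencies are the endpoints of the occupied pieces of a stable horocycle; two unstable horocycles are compared by a projective map `u ↦ u/(1 - X u)`, whose
second derivative gives different dilations to different parts of the horocycle.
(4), (5): let `U` be the set of the unstable coordinates of the points of entropy `h` in a box, `N` the inverse of the scale. By a fourth moment estimate over slopes and frequencies (the difference of the
phases of two slopes has a linear factor) the integrals of `e(t u/(1 - X u))` over `U` are small, summed over any `a`-regular set of frequencies `t`, for all but about `N^(3a + 2h - 2)` slopes `X`. The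
points whose leaves have exceptional slopes have entropy at most `3a + 2h - 2`, which is less than `h` if `3a + h < 2`: this is iterated. For (5) the points with exceptional ergodic averages are used, by
large deviations on horocycles.
(2): in dimension `1/2` the large sieve and the theorem of Balog, Szemeredi and Gowers turn the exceptional maps into multipliers `m` of one set `G` of dimension `1/2` at all scales
(`G - m G` is not larger than `G`); by a discretised ring theorem (after Edgar and Miller, Bourgain, Guth, Katz and Zahl) such a set has fewer than `e^((1/2 - κ) n)` multipliers at the scale `e^(-n)`.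
(3): time is cut into blocks of length `log N0`, and a random label (`K`: the orbit is in one of few Bowen boxes of length `log N0`; `U`: it is not) is given to each block. Sets of orbits with prescribed
future labels and with prescribed past labels are compared by an entropic uncertainty principle, whose input is an inequality for exponential sums on a piece of an unstable horocycle (the digits in base
`N0` of the position and of the frequency are constrained by the labels). A long run of `U` which is followed by `K` gains a power of `N0` over the combinatorial count, again by the projective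
transport between two leaves. If `F(ρ)` were close to `1/2` for a small `ρ` the labels of the orbits would be almost constant over long times (the average of the label over a window of length
`w0 log r` is a slowly varying symbol, so it commutes with the change from one family of packets to another; the part of the state which is almost always in the few boxes would be in the few boxes at both
ends of a time interval of length `log r`, which contradicts the uncertainty principle); otherwise such runs are seen by a positive proportion of the orbits.
(1): from (2), (3) and (4) by integration. (6): a closed geodesic which is charged by `ν` comes from a closed orbit which is charged by `μ`, where the entropy is `0`.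

Definitions (`Pool.Agent.helper93.ER.Spec`, `Pool.Agent.helper52.IR.SpecB`, `Pool.Agent.helper52.CG.Spec`): `Bow Γ δ n x`, the set of the `y = Γ g h`, `x = Γ g`, such that the displacement `(aM t)⁻¹ h (aM t)` of the
orbits at time `t` is within `δ` of the identity for `|t| ≤ n`; `Low Γ μ a`, the set of the `x` such that for all `δ, ε > 0` there are infinitely many `n` with `μ (Bow Γ δ n x) ≥ e^(-(a + ε) 2n)`, so
`Low Γ μ a = {h ≤ a}`; `loc Γ μ x = inf ({t ≥ 0 | x ∈ Low Γ μ t} ∪ {1})`, the minimum `l` of `1` and `h`; `CGset Γ`, the set of the points `Γ g i` of `M` with `γ g = ± g a_t` for some `γ ∈ Γ`, `t > 0`: the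
union of all closed geodesics.
-/

set_option autoImplicit false

open scoped MatrixGroups ContDiff Topology UpperHalfPlane
open UpperHalfPlane MeasureTheory Filter Set

namespace Pool.Agent.Results.MP_07c750_an.EntropyAboveHalf

open Pool.Agent

theorem result : ∃ c : ℝ, 0 < c ∧
    ∀ (Γ : Subgroup SL(2, ℝ)) (F : Set ℍ) (s : ℕ → ℝ) (φ : ℕ → ℍ → ℂ) (ν : Measure (EN.MG Γ)),
      QU.SurfaceGroup Γ → IsFundamentalDomain Γ F (volume : Measure ℍ) →
      Tendsto s atTop atTop → (∀ k, RS.Eig Γ (s k) (φ k)) → (∀ k, ∫ z in F, ‖φ k z‖ ^ 2 = 1) →
      IsFiniteMeasure ν →
      (∀ V : EN.MG Γ → ℝ, Continuous V →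
        Tendsto (fun k => ∫ z in F, V (EN.mkM Γ z) * ‖φ k z‖ ^ 2) atTop (𝓝 (∫ x, V x ∂ν))) →
      (∃ μ : Measure (EN.XG Γ), IsProbabilityMeasure μ ∧ (∀ t, μ.map (EN.fl Γ t) = μ) ∧
        μ.map (EN.pr Γ) = ν ∧ (∀ a : ℝ, MeasurableSet (ER.Low Γ μ a)) ∧ Measurable (IR.loc Γ μ) ∧
        1 / 2 + c ≤ ∫ x, IR.loc Γ μ x ∂μ ∧
        μ (ER.Low Γ μ (1 / 2 + 1 / 10 ^ 7)) ≤ 1 / 2 ∧
        μ (ER.Low Γ μ c) ≤ ENNReal.ofReal (1 / 2 - c) ∧
        (∀ a h : ℝ, 0 ≤ a → a < 1 / 2 → 0 ≤ h → h < 1 → 3 * a + h < 2 →
          μ (ER.Low Γ μ h) + μ (ER.Low Γ μ a) ≤ 1) ∧
        (∀ A : Set (EN.MG Γ), MeasurableSet A →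
          μ (ER.Low Γ μ (1 / 3)) * (volume (F ∩ {z : ℍ | EN.mkM Γ z ∈ A}) / volume F) ≤ ν A)) ∧
      MeasurableSet (CG.CGset Γ) ∧ ν (CG.CGset Γ) ≤ ENNReal.ofReal (1 / 2 - c) :=
  LP.lq_final T1A.A_FN2 HH.A_HAL LQA.A_LPQ LQA.A_UPQ LQA.A_COL LQA.A_CGM

end Pool.Agent.Results.MP_07c750_an.EntropyAboveHalf
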